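import Pool.Agent.Helper96.GP.Basics

open Finset
open scoped Classical

namespace GPG

noncomputable section

variable {L : LS} {P : Par} {pb : ℝ}

/-- On a line `i` through `u ≠ v`. -/
theorem On_eq_prod (C : Finset ℕ) (u v : ℕ) (huv : u ≠ v) (i : Finset ℕ) (hi : i ∈ L.ls)
    (hu : u ∈ i) (hv : v ∈ i) (t : ℕ) :
    (run L P C t).On u v =
      ∏ y ∈ i.filter (fun y => y < t ∧ y < u ∧ y < v ∧ L.Act C i y), (1 - pr L P C y)⁻¹ := by
  induction t with
  | zero =>
    have : i.filter (fun y => y < 0 ∧ y < u ∧ y < v ∧ L.Act C i y) = ∅ := by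
      apply filter_eq_empty_iff.2
      intro x _ h
      exact absurd h.1 (Nat.not_lt_zero _)
    rw [this, prod_empty]
    rfl
  | succ t ih =>
    show stepOn L P C t (run L P C t) u v = _
    unfold stepOn
    by_cases h : t < u ∧ t < v ∧ L.Hit C t u ∧ L.Hit C t v ∧ L.Coll t u v
    · rw [if_pos h, ih]
      obtain ⟨h1, h2, h3, h4, h5⟩ := h
      obtain ⟨j, hj, htj, huj, hvj⟩ := h5
      have hji : j = i := L.uniq j hj i hi u v huv huj hvj hu hv
      subst hji
      obtain ⟨k, hk, htk, huk, hact⟩ := h3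
      have hkj : k = j := L.uniq k hk j hj t u (ne_of_lt h1) htk huk htj huj
      subst hkj
      have hS : k.filter (fun y => y < t + 1 ∧ y < u ∧ y < v ∧ L.Act C k y) =
          insert t (k.filter (fun y => y < t ∧ y < u ∧ y < v ∧ L.Act C k y)) := by
        ext x
        simp only [mem_filter, mem_insert]
        constructor
        · rintro ⟨hx, hxt, hxu, hxv, hxa⟩
          rcases Nat.lt_succ_iff_lt_or_eq.1 hxt with hlt | heq
          · exact Or.inr ⟨hx, hlt, hxu, hxv, hxa⟩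
          · exact Or.inl heq
        · rintro (rfl | ⟨hx, hxt, hxu, hxv, hxa⟩)
          · exact ⟨htj, Nat.lt_succ_self _, h1, h2, hact⟩
          · exact ⟨hx, Nat.lt_succ_of_lt hxt, hxu, hxv, hxa⟩
      rw [hS, prod_insert]
      · rw [div_eq_mul_inv, mul_comm]; rfl
      · simp
    · rw [if_neg h, ih]
      refine prod_congr ?_ (fun _ _ => rfl)
      ext x
      simp only [mem_filter]
      constructor
      · rintro ⟨hx, hxt, hxu, hxv, hxa⟩
        exact ⟨hx, Nat.lt_succ_of_lt hxt, hxu, hxv, hxa⟩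
      · rintro ⟨hx, hxt, hxu, hxv, hxa⟩
        rcases Nat.lt_succ_iff_lt_or_eq.1 hxt with hlt | heq
        · exact ⟨hx, hlt, hxu, hxv, hxa⟩
        · exfalso
          subst heq
          exact h ⟨hxu, hxv, ⟨i, hi, hx, hu, hxa⟩, ⟨i, hi, hx, hv, hxa⟩, ⟨i, hi, hx, hu, hv⟩⟩

/-- Without a common line `On` is `1`. -/
theorem On_eq_one (C : Finset ℕ) (u v : ℕ) (h : ∀ i ∈ L.ls, u ∈ i → v ∉ i) (t : ℕ) :
    (run L P C t).On u v = 1 := by
  induction t with
  | zero => rfl
  | succ t ih =>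
    show stepOn L P C t (run L P C t) u v = _
    unfold stepOn
    rw [if_neg, ih]
    rintro ⟨_, _, _, _, j, hj, _, huj, hvj⟩
    exact h j hj huj hvj

/-- the active points of the line before `v` is stopped -/
def Sl (L : LS) (P : Par) (v : ℕ) (i C : Finset ℕ) : Finset ℕ :=
  i.filter (fun z => z < tau L P v C ∧ L.Act C i z)

theorem At_eq (v : ℕ) (i C : Finset ℕ) (hi : i ∈ L.ls) (hv : v ∈ i) :
    At L P v i C = 1 - ∏ z ∈ Sl L P v i C, (1 - pr L P C z) := by
  rw [Finset.prod_one_sub_ordered, sub_sub_cancel]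
  unfold At
  refine sum_congr rfl ?_
  intro z hz
  have hz' := mem_filter.1 hz
  have hzv : z < v := lt_of_lt_of_le hz'.2.1 (tau_le v C)
  rw [div_eq_mul_inv]
  congr 1
  rw [On_eq_prod C v z (ne_of_gt hzv) i hi hv hz'.1 z, ← prod_inv_distrib]
  refine prod_congr ?_ (fun _ _ => by rw [inv_inv])
  ext y
  simp only [Sl, mem_filter]
  constructor
  · rintro ⟨hy, hyz, _, _, hya⟩
    exact ⟨⟨hy, lt_trans hyz hz'.2.1, hya⟩, hyz⟩
  · rintro ⟨⟨hy, _, hya⟩, hyz⟩
    exact ⟨hy, hyz, lt_trans hyz hzv, hyz, hya⟩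

theorem At_nonneg (hG : Good L P pb) (v : ℕ) (i C : Finset ℕ) : 0 ≤ At L P v i C := by
  unfold At
  refine sum_nonneg (fun z _ => ?_)
  exact div_nonneg (pr_nonneg hG C z) (le_trans zero_le_one (On_one_le hG C z v z))

theorem At_lt_one (hG : Good L P pb) (v : ℕ) (i C : Finset ℕ) (hi : i ∈ L.ls) (hv : v ∈ i) :
    At L P v i C < 1 := by
  rw [At_eq v i C hi hv]
  have : 0 < ∏ z ∈ Sl L P v i C, (1 - pr L P C z) := prod_pos (fun z _ => one_sub_pr_pos hG C z)
  linarith

theorem lt_tau_iff (v : ℕ) (C : Finset ℕ) (t : ℕ) :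
    t < tau L P v C ↔ t < v ∧ ¬ (run L P C t).stop v := by
  constructor
  · intro h
    exact ⟨lt_of_lt_of_le h (tau_le v C), not_stop_of_lt_tau v C t h⟩
  · rintro ⟨h1, h2⟩
    by_contra hc
    have hc := not_lt.1 hc
    rcases tau_spec (L := L) (P := P) v C with h3 | h3
    · rw [h3] at hc; exact absurd h1 (not_lt.2 hc)
    · exact h2 (stop_mono C hc v h3)

theorem Z_eq_aux (v : ℕ) (C : Finset ℕ) (t : ℕ) (hZ : (run L P C t).Z v ≠ 0) :
    (run L P C t).Z v =
      ∏ y ∈ (range t).filter (fun y => y < tau L P v C ∧ L.Hit C y v),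
        (1 - pr L P C y)⁻¹ := by
  induction t with
  | zero => simp; rfl
  | succ t ih =>
    have hZt : (run L P C t).Z v ≠ 0 := by
      intro h0
      exact hZ (Z_zero_of C v (Nat.le_succ t) h0)
    have ih := ih hZt
    have hstep : (run L P C (t + 1)).Z v = stepZ L P C t (run L P C t) v := rfl
    by_cases h : t < tau L P v C ∧ L.Hit C t v
    · have h1 := (lt_tau_iff v C t).1 h.1
      have hS : (range (t + 1)).filter (fun y => y < tau L P v C ∧ L.Hit C y v) =
          insert t ((range t).filter (fun y => y < tau L P v C ∧ L.Hit C y v)) := by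
        rw [range_add_one, filter_insert, if_pos h]
      rw [hS, prod_insert (by simp), ← ih]
      rw [hstep]
      rw [hstep] at hZ
      unfold stepZ at hZ ⊢
      rw [if_neg h1.2, if_pos ⟨h1.1, h.2⟩] at hZ ⊢
      by_cases htC : t ∈ C
      · rw [if_pos htC] at hZ; exact absurd rfl hZ
      · rw [if_neg htC]
        rw [div_eq_mul_inv, mul_comm]; rfl
    · have hS : (range (t + 1)).filter (fun y => y < tau L P v C ∧ L.Hit C y v) =
          ((range t).filter (fun y => y < tau L P v C ∧ L.Hit C y v)) := by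
        rw [range_add_one, filter_insert, if_neg h]
      rw [hS, ← ih, hstep]
      unfold stepZ
      split_ifs with h1 h2 h3
      · rfl
      · exact absurd ⟨(lt_tau_iff v C t).2 ⟨h2.1, h1⟩, h2.2⟩ h
      · exact absurd ⟨(lt_tau_iff v C t).2 ⟨h2.1, h1⟩, h2.2⟩ h
      · rfl

theorem Z_eq_prod (_hG : Good L P pb) (v : ℕ) (C : Finset ℕ)
    (hZ : (run L P C v).Z v ≠ 0) :
    (run L P C v).Z v = ∏ i ∈ L.ls.filter (fun i => v ∈ i), (1 - At L P v i C)⁻¹ := by
  rw [Z_eq_aux v C v hZ]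
  have h1 : ∏ i ∈ L.ls.filter (fun i => v ∈ i), (1 - At L P v i C)⁻¹ =
      ∏ i ∈ L.ls.filter (fun i => v ∈ i), ∏ z ∈ Sl L P v i C, (1 - pr L P C z)⁻¹ := by
    refine prod_congr rfl ?_
    intro i hi
    have hi := mem_filter.1 hi
    rw [At_eq v i C hi.1 hi.2, sub_sub_cancel, prod_inv_distrib]
  rw [h1, ← prod_biUnion]
  · refine prod_congr ?_ (fun _ _ => rfl)
    ext z
    simp only [mem_filter, mem_biUnion, mem_range, Sl]
    constructor
    · rintro ⟨_, hz, j, hj, hzj, hvj, ha⟩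
      exact ⟨j, ⟨hj, hvj⟩, hzj, hz, ha⟩
    · rintro ⟨j, ⟨hj, hvj⟩, hzj, hz, ha⟩
      exact ⟨lt_of_lt_of_le hz (tau_le v C), hz, j, hj, hzj, hvj, ha⟩
  · intro i hi j hj hij
    rw [Function.onFun, disjoint_left]
    intro z hz hz'
    have hi := mem_filter.1 hi
    have hj := mem_filter.1 hj
    have hz := mem_filter.1 hz
    have hz' := mem_filter.1 hz'
    have hzv : z ≠ v := ne_of_lt (lt_of_lt_of_le hz.2.1 (tau_le v C))
    exact hij (L.uniq i hi.1 j hj.1 z v hzv hz.1 hi.2 hz'.1 hj.2)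

theorem On_tau_le (hG : Good L P pb) (v : ℕ) (C : Finset ℕ) (u : ℕ) (huv : u ≠ v)
    (h : (run L P C (tau L P v C)).On u v ≠ 1) :
    ∃ i ∈ L.ls, u ∈ i ∧ v ∈ i ∧
      (run L P C (tau L P v C)).On u v ≤ (1 - At L P v i C)⁻¹ := by
  have h1 : ∃ i ∈ L.ls, u ∈ i ∧ v ∈ i := by
    by_contra hc
    push Not at hc
    exact h (On_eq_one C u v hc _)
  obtain ⟨i, hi, hui, hvi⟩ := h1
  refine ⟨i, hi, hui, hvi, ?_⟩
  rw [On_eq_prod C u v huv i hi hui hvi, At_eq v i C hi hvi, sub_sub_cancel, ← prod_inv_distrib]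
  have hsub : i.filter (fun y => y < tau L P v C ∧ y < u ∧ y < v ∧ L.Act C i y) ⊆
      Sl L P v i C := by
    intro z hz
    have hz := mem_filter.1 hz
    exact mem_filter.2 ⟨hz.1, hz.2.1, hz.2.2.2.2⟩
  rw [← prod_sdiff hsub]
  refine le_mul_of_one_le_left (prod_nonneg (fun z _ => inv_nonneg.2 (one_sub_pr_pos hG C z).le))
    (prod_induction _ (fun x : ℝ => 1 ≤ x) (fun a b ha hb => one_le_mul_of_one_le_of_one_le ha hb)
      le_rfl ?_)
  intro z _
  have h1 := one_sub_pr_pos hG C z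
  have h2 := pr_nonneg hG C z
  exact (one_le_inv₀ h1).2 (by linarith)

theorem Off_tau_le (hG : Good L P pb) (v : ℕ) (C : Finset ℕ) (u : ℕ) :
    (run L P C (tau L P v C)).Off u v ≤ (1 / (1 - pb)) ^ (NN L P v C u) := by
  have hpb : 0 < 1 - pb := by have := hG.pb2; linarith
  have hone : 1 ≤ 1 / (1 - pb) := by
    rw [one_div]; exact (one_le_inv₀ hpb).2 (by have := hG.pb0; linarith)
  have key : ∀ t, (run L P C t).Off u v ≤ (1 / (1 - pb)) ^
      (((range t).filter (fun y => y < u ∧ L.Hit C y u ∧ L.Hit C y v ∧ ¬ L.Coll y u v)).card) := by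
    intro t
    induction t with
    | zero => simp; exact le_rfl
    | succ t ih =>
      show stepOff L P C t (run L P C t) u v ≤ _
      unfold stepOff
      split_ifs with h1
      · have hS : (range (t + 1)).filter
            (fun y => y < u ∧ L.Hit C y u ∧ L.Hit C y v ∧ ¬ L.Coll y u v) =
            insert t ((range t).filter
              (fun y => y < u ∧ L.Hit C y u ∧ L.Hit C y v ∧ ¬ L.Coll y u v)) := by
          rw [range_add_one, filter_insert, if_pos ⟨h1.1, h1.2.2⟩]
        rw [hS, card_insert_of_notMem (by simp), pow_succ, div_eq_mul_inv, one_div]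
        rw [one_div] at ih
        have h2 : 0 < 1 - (run L P C t).m P t := one_sub_pr_pos hG C t
        have h3 : (run L P C t).m P t ≤ pb := m_le hG C t t
        refine mul_le_mul ih ?_ (inv_nonneg.2 h2.le) (pow_nonneg (inv_nonneg.2 hpb.le) _)
        exact inv_anti₀ hpb (by linarith)
      · refine le_trans ih (pow_le_pow_right₀ hone (card_le_card ?_))
        exact filter_subset_filter _ (range_subset_range.2 (Nat.le_succ t))
  exact key _

end

end GPG
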